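import Pool.Agent.Helper70.OB.Goals

/-!
# OB-BAS
-/

open MeasureTheory Set Metric Filter
open scoped ENNReal Topology

set_option autoImplicit false

namespace Pool.Agent.Helper51.OB

open Pool.Agent.Helper70.OB

theorem fund {f F : ℝ → ℝ} {A c r b : ℝ} (hc : c < r) (hb : r < b)
    (hI : IntervalIntegrable f volume c b) (hF : ∀ x, c < x → F x = A + ∫ t in c..x, f t)
    (hcont : ContinuousAt f r) : HasDerivAt F (f r) r := by
  have h1 : IntervalIntegrable f volume c r := by
    apply hI.mono_set
    rw [uIcc_of_le hc.le, uIcc_of_le (hc.trans hb).le]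
    exact Icc_subset_Icc le_rfl hb.le
  have h2 : StronglyMeasurableAtFilter f (𝓝 r) volume :=
    ⟨Ioc c b, Ioc_mem_nhds hc hb, hI.1.aestronglyMeasurable⟩
  have h3 := (intervalIntegral.integral_hasDerivAt_right h1 h2 hcont).const_add A
  refine h3.congr_of_eventuallyEq ?_
  filter_upwards [Ioi_mem_nhds hc] with x hx
  exact hF x hx

theorem cont_prim {f F : ℝ → ℝ} {A c r b : ℝ} (hc : c < r) (hb : r < b)
    (hI : IntervalIntegrable f volume c b) (hF : ∀ x, c < x → F x = A + ∫ t in c..x, f t) :
    ContinuousAt F r := by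
  have hcb := (hc.trans hb).le
  have h1 : ContinuousOn (fun x => ∫ t in c..x, f t) (uIcc c b) :=
    intervalIntegral.continuousOn_primitive_interval' hI (by rw [uIcc_of_le hcb]; exact ⟨le_rfl, hcb⟩)
  have h2 : ContinuousAt (fun x => ∫ t in c..x, f t) r := by
    apply h1.continuousAt
    rw [uIcc_of_le hcb]
    exact Icc_mem_nhds hc hb
  have h3 : ContinuousAt (fun x => A + ∫ t in c..x, f t) r := continuousAt_const.add h2
  apply h3.congr
  filter_upwards [Ioi_mem_nhds hc] with x hx
  exact (hF x hx).symm

theorem bas : BAS := by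
  intro k V P m h
  have h2k := h.two_le
  -- the primitive formula for `V`
  have hVF : ∀ j < k, ∀ r : ℝ, 0 < r → ∀ x, r / 2 < x →
      V j x = V j (r / 2) + ∫ t in (r / 2)..x, P j t / t ^ (2 * k - 2) := by
    intro j hj r hr x hx
    have := h.der j hj (r / 2) x (by linarith) hx.le
    linarith
  have hVc : ∀ j < k, ∀ r : ℝ, 0 < r → ContinuousAt (V j) r := by
    intro j hj r hr
    exact cont_prim (by linarith : r / 2 < r) (by linarith : r < r + 1)
      (h.pint j hj (r / 2) (r + 1) (by linarith) (by linarith)) (hVF j hj r hr)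
  have hVd : ∀ j < k, ∀ r : ℝ, 0 < r → ContinuousAt (P j) r →
      HasDerivAt (V j) (P j r / r ^ (2 * k - 2)) r := by
    intro j hj r hr hP
    have h1 : ContinuousAt (fun t => P j t / t ^ (2 * k - 2)) r :=
      hP.div (continuousAt_id.pow _) (by positivity)
    exact fund (f := fun t => P j t / t ^ (2 * k - 2)) (by linarith : r / 2 < r)
      (by linarith : r < r + 1)
      (h.pint j hj (r / 2) (r + 1) (by linarith) (by linarith)) (hVF j hj r hr) h1
  have hPd : ∀ j, j + 1 < k → ∀ r : ℝ, 0 < r →
      HasDerivAt (P j) (r ^ (2 * k - 2) * (V j r - V (j + 1) r)) r := by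
    intro j hj r hr
    have h1 : ContinuousAt (fun u => u ^ (2 * k - 2) * (V j u - V (j + 1) u)) r :=
      (continuousAt_id.pow _).mul ((hVc j (by omega) r hr).sub (hVc (j + 1) hj r hr))
    have h2 : IntervalIntegrable (fun u => u ^ (2 * k - 2) * (V j u - V (j + 1) u)) volume 0
        (r + 1) := by
      have h3 := (h.int j (by omega) (r + 1) (by linarith)).sub
        (h.int (j + 1) hj (r + 1) (by linarith))
      refine h3.congr ?_
      intro u _
      simp only []
      ring
    refine fund (f := fun u => u ^ (2 * k - 2) * (V j u - V (j + 1) u)) (A := 0) hr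
      (by linarith : r < r + 1) h2 ?_ h1
    intro x hx
    rw [h.flux j hj x hx, zero_add]
  have hIQ : ∀ r : ℝ, 0 < r →
      IntervalIntegrable (fun u => u ^ (2 * k - 2) * (V (k - 1) u + 1)) volume 0 r := by
    intro r hr
    have h3 := (h.int (k - 1) (by omega) r hr).add
      ((continuous_pow (2 * k - 2)).intervalIntegrable (μ := volume) 0 r)
    refine h3.congr ?_
    intro u _
    simp only []
    ring
  have hQd : ∀ r : ℝ, 0 < r → HasDerivAt
      (fun r => ∫ u in (0 : ℝ)..r, u ^ (2 * k - 2) * (V (k - 1) u + 1))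
      (r ^ (2 * k - 2) * (V (k - 1) r + 1)) r := by
    intro r hr
    have h1 : ContinuousAt (fun u => u ^ (2 * k - 2) * (V (k - 1) u + 1)) r :=
      (continuousAt_id.pow _).mul ((hVc (k - 1) (by omega) r hr).add continuousAt_const)
    refine fund (f := fun u => u ^ (2 * k - 2) * (V (k - 1) u + 1)) (A := 0) hr
      (by linarith : r < r + 1) (hIQ (r + 1) (by linarith)) ?_ h1
    intro x _
    rw [zero_add]
  have hTop : ∀ r : ℝ, 0 < r → ContinuousAt m r → ContinuousAt (P (k - 1)) r := by
    intro r hr hm
    have h1 : ContinuousAt (fun r => (∫ u in (0 : ℝ)..r, u ^ (2 * k - 2) * (V (k - 1) u + 1)) - m r)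
        r := (hQd r hr).continuousAt.sub hm
    apply h1.congr
    filter_upwards [Ioi_mem_nhds hr] with x hx
    exact (h.top x hx).symm
  refine ⟨?_, ?_, ?_, ?_⟩
  · intro j hj r hr
    exact (hVc j hj r hr).continuousWithinAt
  · intro j hj r hr
    exact ⟨hVd j (by omega) r hr (hPd j hj r hr).continuousAt, hPd j hj r hr⟩
  · intro r hr hm
    exact hVd (k - 1) (by omega) r hr (hTop r hr hm)
  · intro a b ha hab r hr
    have hr0 : 0 < r := lt_of_le_of_lt ha hr.1
    have hev : ∀ᶠ x in 𝓝 r, m x = m r := by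
      filter_upwards [Ioo_mem_nhds hr.1 hr.2] with x hx
      exact hab x hx r hr
    have hm : ContinuousAt m r := by
      have : ContinuousAt (fun _ : ℝ => m r) r := continuousAt_const
      apply this.congr
      filter_upwards [hev] with x hx
      exact hx.symm
    refine ⟨hVd (k - 1) (by omega) r hr0 (hTop r hr0 hm), ?_⟩
    have h1 := (hQd r hr0).sub_const (m r)
    refine h1.congr_of_eventuallyEq ?_
    filter_upwards [hev, Ioi_mem_nhds hr0] with x hx hx0
    rw [h.top x hx0, hx]

end Pool.Agent.Helper51.OB
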