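import Pool.Agent.Helper6.OB.Goals3

/-!
# Packet OB-FIN: assembly
-/

set_option autoImplicit false

namespace Pool.Agent.Helper51.OB

open Pool.Agent.Helper6.OB
open Pool.Agent.Helper6.CS

theorem t_FIN : Pool.Agent.Helper6.OB.G_FIN := by
  intro hA hB hC h r A hm
  obtain ⟨w, hw⟩ := hC hA hB A hm
  rw [← hw]
  exact h A.M w r

end Pool.Agent.Helper51.OB
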